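import Pool.Agent.H33.HH.TA

/-!
# Row HEX: the cutoff exists
-/

set_option autoImplicit false

open Filter Topology
open scoped ContDiff

namespace Pool.Agent.H66.HH

open Pool.Agent.H33.HH

noncomputable section

/-- the cutoff -/
def Hf (u : ℝ) : ℝ :=
  if 0 < u then Real.smoothTransition (Real.log u / Real.log 4 + 1 / 2) * u ^ (-(1 / 2) : ℝ) else 0

theorem log4 : Real.log 4 = 2 * Real.log 2 := by
  have h : (4 : ℝ) = 2 ^ (2 : ℕ) := by norm_num
  rw [h, Real.log_pow]
  norm_num

theorem st_sym (v : ℝ) : Real.smoothTransition v + Real.smoothTransition (1 - v) = 1 := by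
  have h1 := Real.smoothTransition.pos_denom v
  unfold Real.smoothTransition
  have h2 : 1 - (1 - v) = v := by ring
  rw [h2, add_comm (expNegInvGlue (1 - v)) (expNegInvGlue v), ← add_div, div_self h1.ne']

theorem pf_HEX : T_HEX := by
  have hl2 : 0 < Real.log 2 := Real.log_pos (by norm_num)
  have hl4 : 0 < Real.log 4 := Real.log_pos (by norm_num)
  have hlow : ∀ u, u ≤ 1 / 2 → Hf u = 0 := by
    intro u hu
    unfold Hf
    split_ifs with h0
    · have h1 : Real.log u ≤ - Real.log 2 := by
        rw [← Real.log_inv]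
        refine Real.log_le_log h0 ?_
        linarith
      have h2 : Real.log u / Real.log 4 + 1 / 2 ≤ 0 := by
        have h3 : Real.log u / Real.log 4 ≤ - (1 / 2) := by
          rw [div_le_iff₀ hl4, log4]
          linarith
        linarith
      rw [Real.smoothTransition.zero_of_nonpos h2, zero_mul]
    · rfl
  refine ⟨Hf, ?_, ?_, hlow, ?_, ?_⟩
  · rw [contDiff_iff_contDiffAt]
    intro u
    by_cases hu : u < 1 / 2
    · refine (contDiffAt_const (c := (0 : ℝ))).congr_of_eventuallyEq ?_
      filter_upwards [Iio_mem_nhds hu] with x hx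
      exact hlow x (le_of_lt hx)
    · have hu0 : 0 < u := by linarith
      have h1 : ContDiffAt ℝ ∞ (fun x : ℝ =>
          Real.smoothTransition (Real.log x / Real.log 4 + 1 / 2) * x ^ (-(1 / 2) : ℝ)) u := by
        refine ContDiffAt.mul ?_ ?_
        · refine (Real.smoothTransition.contDiff.contDiffAt).comp u ?_
          exact ((Real.contDiffAt_log.2 hu0.ne').div_const _).add contDiffAt_const
        · exact contDiffAt_id.rpow_const_of_ne hu0.ne'
      refine h1.congr_of_eventuallyEq ?_
      filter_upwards [Ioi_mem_nhds hu0] with x hx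
      have hx' : 0 < x := hx
      unfold Hf
      rw [if_pos hx']
  · intro u
    unfold Hf
    split_ifs with h0
    · exact mul_nonneg (Real.smoothTransition.nonneg _) (Real.rpow_nonneg h0.le _)
    · exact le_refl _
  · intro u hu
    have h0 : 0 < u := by linarith
    unfold Hf
    rw [if_pos h0]
    have h1 : 1 ≤ Real.log u / Real.log 4 + 1 / 2 := by
      have h2 : Real.log 2 ≤ Real.log u := Real.log_le_log (by norm_num) hu
      have h3 : 1 / 2 ≤ Real.log u / Real.log 4 := by
        rw [le_div_iff₀ hl4, log4]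
        linarith
      linarith
    rw [Real.smoothTransition.one_of_one_le h1, one_mul]
  · intro u hu
    have hu' : 0 < u⁻¹ := inv_pos.2 hu
    unfold Hf
    rw [if_pos hu, if_pos hu', Real.log_inv]
    have e1 : -Real.log u / Real.log 4 + 1 / 2 = 1 - (Real.log u / Real.log 4 + 1 / 2) := by ring
    have e2 : u ^ (1 / 2 : ℝ) * u ^ (-(1 / 2) : ℝ) = 1 := by
      rw [← Real.rpow_add hu]
      norm_num
    have e3 : (u⁻¹) ^ (-(1 / 2) : ℝ) = u ^ (1 / 2 : ℝ) := by
      rw [Real.inv_rpow hu.le, Real.rpow_neg hu.le, inv_inv]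
    rw [e1, e3]
    have e4 := st_sym (Real.log u / Real.log 4 + 1 / 2)
    calc u ^ (1 / 2 : ℝ) * (Real.smoothTransition (Real.log u / Real.log 4 + 1 / 2) *
          u ^ (-(1 / 2) : ℝ)) + u ^ (-(1 / 2) : ℝ) *
          (Real.smoothTransition (1 - (Real.log u / Real.log 4 + 1 / 2)) * u ^ (1 / 2 : ℝ))
        = (u ^ (1 / 2 : ℝ) * u ^ (-(1 / 2) : ℝ)) *
          (Real.smoothTransition (Real.log u / Real.log 4 + 1 / 2) +
            Real.smoothTransition (1 - (Real.log u / Real.log 4 + 1 / 2))) := by ring
      _ = 1 := by rw [e2, e4, one_mul]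

end

end Pool.Agent.H66.HH
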